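import Pool.Agent.V5helper10.GK.Stm2

/-! Project GK, part 2, job ALG: a form invariant under the special orthogonal group of `B` has algebraic values on the
columns of `P` if `Pᵀ B P` is algebraic (specialization of `P` to a matrix of algebraic numbers, Nullstellensatz). -/

set_option autoImplicit false

namespace Pool.Agent.V5helper4.GK

open Module Matrix
open Pool.Agent.V5helper10.GK (BC MInv S_ALG)

/-- the field of algebraic numbers -/
noncomputable abbrev KK : IntermediateField ℚ ℂ := algebraicClosure ℚ ℂ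

instance : IsAlgClosed KK := (algebraicClosure.isAlgClosure ℚ ℂ).isAlgClosed

/-- a solution in algebraic numbers of all the relations of the entries of `P` -/
theorem specialize {σ : Type} [Finite σ] (P : σ → ℂ) :
    ∃ Q : σ → KK, ∀ p : MvPolynomial σ KK, MvPolynomial.aeval P p = 0 → MvPolynomial.aeval Q p = 0 := by
  set I : Ideal (MvPolynomial σ KK) := RingHom.ker (MvPolynomial.aeval P : MvPolynomial σ KK →ₐ[KK] ℂ) with hI
  have hne : (MvPolynomial.zeroLocus KK I).Nonempty := by
    by_contra h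
    rw [Set.not_nonempty_iff_eq_empty] at h
    have h1 := MvPolynomial.vanishingIdeal_zeroLocus_eq_radical (K := KK) I
    rw [h, MvPolynomial.vanishingIdeal_empty] at h1
    have h2 : I = ⊤ := Ideal.radical_eq_top.1 h1.symm
    exact RingHom.ker_ne_top _ h2
  obtain ⟨Q, hQ⟩ := hne
  exact ⟨Q, fun p hp => hQ p (by rw [hI, RingHom.mem_ker]; exact hp)⟩

theorem minv_mul {m : ℕ} {κ : Type} [Fintype κ] [DecidableEq κ] (t : (Fin m → κ) → ℂ) (G H : Matrix κ κ ℂ)
    (h : MInv t G) (J : Fin m → κ) :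
    ∑ I : Fin m → κ, t I * ∏ l, (G * H) (I l) (J l) = ∑ I : Fin m → κ, t I * ∏ l, H (I l) (J l) := by
  have h1 : ∀ I : Fin m → κ, ∏ l, (G * H) (I l) (J l) =
      ∑ L : Fin m → κ, (∏ l, G (I l) (L l)) * ∏ l, H (L l) (J l) := by
    intro I
    simp only [Matrix.mul_apply]
    rw [Finset.prod_univ_sum]
    rw [Fintype.piFinset_univ]
    apply Finset.sum_congr rfl
    intro L _
    rw [Finset.prod_mul_distrib]
  calc ∑ I : Fin m → κ, t I * ∏ l, (G * H) (I l) (J l)
      = ∑ I : Fin m → κ, ∑ L : Fin m → κ, (t I * ∏ l, G (I l) (L l)) * ∏ l, H (L l) (J l) := by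
        apply Finset.sum_congr rfl
        intro I _
        rw [h1, Finset.mul_sum]
        apply Finset.sum_congr rfl
        intro L _
        ring
    _ = ∑ L : Fin m → κ, (∑ I : Fin m → κ, t I * ∏ l, G (I l) (L l)) * ∏ l, H (L l) (J l) := by
        rw [Finset.sum_comm]
        apply Finset.sum_congr rfl
        intro L _
        rw [Finset.sum_mul]
    _ = _ := by
        apply Finset.sum_congr rfl
        intro L _
        rw [h L]

theorem t_ALG : S_ALG := by
  intro r s m B _ hB P hP hA t hinv J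
  -- algebraic entries
  have memK : ∀ x : ℂ, x ∈ KK ↔ IsAlgebraic ℚ x := fun x => mem_algebraicClosure_iff
  set A : Matrix (Fin r) (Fin r) KK := fun i j => ⟨(Pᵀ * BC B * P) i j, (memK _).2 (hA i j)⟩ with hAd
  have hAmap : A.map (algebraMap KK ℂ) = Pᵀ * BC B * P := by
    ext i j
    rfl
  set BK : Matrix (Fin r) (Fin r) KK := B.map (algebraMap ℚ KK) with hBK
  have hBKmap : BK.map (algebraMap KK ℂ) = BC B := by
    ext i j
    rw [hBK, Matrix.map_apply, Matrix.map_apply, ← IsScalarTower.algebraMap_apply]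
    rfl
  have hdetB : (BC B).det = ((B.det : ℚ) : ℂ) := by
    have : BC B = B.map (algebraMap ℚ ℂ) := rfl
    rw [this, ← RingHom.mapMatrix_apply, ← RingHom.map_det]
    rfl
  have hdetB0 : (BC B).det ≠ 0 := by
    rw [hdetB]
    exact_mod_cast hB
  -- the determinant is algebraic
  have hPalg : IsAlgebraic ℚ P.det := by
    apply IsAlgebraic.of_pow (n := 2) (by norm_num)
    rw [← memK]
    have h1 : P.det ^ 2 = algebraMap KK ℂ (A.det / BK.det) := by
      rw [map_div₀, RingHom.map_det, RingHom.map_det, RingHom.mapMatrix_apply, RingHom.mapMatrix_apply,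
        hAmap, hBKmap, det_mul, det_mul, det_transpose]
      field_simp
    rw [h1]
    exact (A.det / BK.det).2
  set dP : KK := ⟨P.det, (memK _).2 hPalg⟩ with hdP
  -- specialization
  obtain ⟨Q, hQ⟩ := specialize (fun ij : Fin r × Fin r => P ij.1 ij.2)
  set X : Matrix (Fin r) (Fin r) (MvPolynomial (Fin r × Fin r) KK) := fun i j => MvPolynomial.X (i, j) with hX
  set Q' : Matrix (Fin r) (Fin r) KK := fun i j => Q (i, j) with hQ'
  have mapP : X.map (MvPolynomial.aeval (R := KK) (fun ij : Fin r × Fin r => P ij.1 ij.2)) = P := by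
    ext i j
    rw [Matrix.map_apply, hX, MvPolynomial.aeval_X]
  have mapQ : X.map (MvPolynomial.aeval (R := KK) Q) = Q' := by
    ext i j
    rw [Matrix.map_apply, hX, MvPolynomial.aeval_X]
  have mapC : ∀ (N : Matrix (Fin r) (Fin r) KK),
      (N.map (MvPolynomial.C (σ := Fin r × Fin r))).map
        (MvPolynomial.aeval (R := KK) (fun ij : Fin r × Fin r => P ij.1 ij.2)) = N.map (algebraMap KK ℂ) := by
    intro N
    ext i j
    rw [Matrix.map_apply, Matrix.map_apply, Matrix.map_apply, MvPolynomial.aeval_C]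
  have mapC' : ∀ (N : Matrix (Fin r) (Fin r) KK),
      (N.map (MvPolynomial.C (σ := Fin r × Fin r))).map (MvPolynomial.aeval (R := KK) Q) = N := by
    intro N
    ext i j
    rw [Matrix.map_apply, Matrix.map_apply, MvPolynomial.aeval_C]
    rfl
  set XX : Matrix (Fin r) (Fin r) (MvPolynomial (Fin r × Fin r) KK) :=
    Xᵀ * BK.map (MvPolynomial.C (σ := Fin r × Fin r)) * X with hXX
  have hrel : Q'ᵀ * BK * Q' = A := by
    funext i j
    have h1 := hQ (XX i j - MvPolynomial.C (A i j)) (by
      have e : (XX.map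
          (MvPolynomial.aeval (R := KK) (fun ij : Fin r × Fin r => P ij.1 ij.2))) i j = (Pᵀ * BC B * P) i j := by
        rw [hXX, Matrix.map_mul, Matrix.map_mul, mapC, hBKmap, Matrix.transpose_map, mapP]
      rw [Matrix.map_apply] at e
      rw [map_sub, e, MvPolynomial.aeval_C]
      exact sub_self _)
    have e : (XX.map (MvPolynomial.aeval (R := KK) Q)) i j = (Q'ᵀ * BK * Q') i j := by
      rw [hXX, Matrix.map_mul, Matrix.map_mul, mapC', Matrix.transpose_map, mapQ]
    rw [Matrix.map_apply] at e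
    rw [map_sub, e, MvPolynomial.aeval_C, sub_eq_zero] at h1
    exact h1
  have hdet : Q'.det = dP := by
    have h1 := hQ (X.det - MvPolynomial.C dP) (by
      rw [map_sub, MvPolynomial.aeval_C, AlgHom.map_det, AlgHom.mapMatrix_apply, mapP]
      exact sub_self _)
    rw [map_sub, MvPolynomial.aeval_C, AlgHom.map_det, AlgHom.mapMatrix_apply, mapQ, sub_eq_zero] at h1
    exact h1
  set Qc : Matrix (Fin r) (Fin r) ℂ := Q'.map (algebraMap KK ℂ) with hQc
  have hQrel : Qcᵀ * BC B * Qc = Pᵀ * BC B * P := by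
    rw [← hAmap, ← hrel, Matrix.map_mul, Matrix.map_mul, hBKmap, Matrix.transpose_map]
  have hQdet : Qc.det = P.det := by
    rw [hQc, ← RingHom.mapMatrix_apply, ← RingHom.map_det, hdet]
    rfl
  have hQ0 : IsUnit Qc.det := by
    rw [hQdet]
    exact isUnit_iff_ne_zero.2 hP
  -- the rotation
  set g : Matrix (Fin r) (Fin r) ℂ := P * Qc⁻¹ with hg
  have hgQ : g * Qc = P := by
    rw [hg, Matrix.mul_assoc, Matrix.nonsing_inv_mul _ hQ0, Matrix.mul_one]
  have hgB : gᵀ * BC B * g = BC B := by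
    have h1 : gᵀ * BC B * g = (Qc⁻¹)ᵀ * (Pᵀ * BC B * P) * Qc⁻¹ := by
      rw [hg, Matrix.transpose_mul]
      simp only [Matrix.mul_assoc]
    rw [h1, ← hQrel]
    have h2 : (Qc⁻¹)ᵀ * Qcᵀ = 1 := by
      rw [← Matrix.transpose_mul, Matrix.mul_nonsing_inv _ hQ0, Matrix.transpose_one]
    calc (Qc⁻¹)ᵀ * (Qcᵀ * BC B * Qc) * Qc⁻¹ = ((Qc⁻¹)ᵀ * Qcᵀ) * BC B * (Qc * Qc⁻¹) := by
          simp only [Matrix.mul_assoc]
      _ = BC B := by rw [h2, Matrix.mul_nonsing_inv _ hQ0, Matrix.one_mul, Matrix.mul_one]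
  have hgdet : g.det = 1 := by
    have h1 : g.det * Qc.det = P.det := by rw [← det_mul, hgQ]
    rw [hQdet] at h1
    exact mul_right_cancel₀ hP (h1.trans (one_mul _).symm)
  have hblock : Matrix.fromBlocks (1 : Matrix (Fin s) (Fin s) ℂ) 0 0 P =
      Matrix.fromBlocks (1 : Matrix (Fin s) (Fin s) ℂ) 0 0 g *
        Matrix.fromBlocks (1 : Matrix (Fin s) (Fin s) ℂ) 0 0 Qc := by
    rw [Matrix.fromBlocks_multiply, hgQ]
    simp
  rw [hblock, minv_mul _ _ _ (hinv g hgB hgdet) J, ← memK]
  apply sum_mem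
  intro I _
  apply mul_mem
  · have : ((t I : ℚ) : ℂ) = algebraMap ℚ ℂ (t I) := rfl
    rw [this]
    exact algebraMap_mem KK (t I)
  · apply prod_mem
    intro l _
    rcases hI : I l with a | a <;> rcases hJ : J l with b | b
    · rw [Matrix.fromBlocks_apply₁₁, Matrix.one_apply]
      split_ifs
      · exact one_mem _
      · exact zero_mem _
    · rw [Matrix.fromBlocks_apply₁₂]
      exact zero_mem _
    · rw [Matrix.fromBlocks_apply₂₁]
      exact zero_mem _
    · rw [Matrix.fromBlocks_apply₂₂, hQc, Matrix.map_apply]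
      exact (Q' a b).2

end Pool.Agent.V5helper4.GK
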